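import Pool.Agent.Helper672.Pinus.Main

/-!
# A finitely based variety whose relation `≡_S` is none of `∇`, `≡_{2p}`, `≡_2`

The variety has a binary operation `f` and unary operations `s, s', t, t'` with the identities
* `s s' x = x = s' s x`, `t t' x = x = t' t x`, `s t x = t s x`;
* `f (x, x) = x`, `f (f (x, y), z) = f (x, z)`, `f (x, f (y, z)) = f (x, z)`;
* with `f_s (x, y) = s f (s' x, s' y)`:
  `f (f_s (x, y), f_s (z, w)) = f_s (f (x, z), f (y, w))` and
  `t f (t' x, t' y) = f (f_s (y, x), f_s (x, y))`.

Outline of the proof.
* Let `G = ℤ × ℤ` act through `s, t`, and let `f_g` be the translates of `f`. The last identity
  says `f_t = f xor f_s`, and this yields (a trick of G. Baumslag) that all the operations `f_g`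
  commute with each other, although only `f` and `f_s` were required to.
* Let `B` be the compact space of all `p : G → {0, 1}` with
  `p (i, j + 1) = p (i, j) + p (i + 1, j)`. Then the free algebra on `X` is the algebra of all
  locally constant maps from `B` to `X × G`, where `f (z, w)` is `z` on the set of all `p` with
  `p (0, 0) = 1` and is `w` elsewhere. For the proof of freeness one attaches to each algebra of
  the variety and each `p : G → {0, 1}` an equivalence relation, shows that these relations
  separate points and that the relation is total if `p` is not in `B`.
* The nonempty subalgebras of the free algebra correspond to the families `(U_x)`, `x` in `X`, of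
  open subsets of `B` such that each orbit of `G` in `B` meets some `U_x`. The lattice of
  subalgebras is the ordered set of these families, with the empty family added.
* If `X`, `Y` have more than `θ` elements, `θ` the number of open sets of `B`, then a back and
  forth argument shows that the two lattices are elementarily equivalent.
* A first-order sentence separates countable `X` from `X` with more than `θ` elements: it says
  that there is a closed subset `C` of `X × B` which contains the whole orbit of a point `e` except
  for the point itself and is such that no clopen neighbourhood in `C` of a point of the orbit can be
  mapped, within orbits, to a clopen neighbourhood of another point of the orbit. (For large `X`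
  two fibres of `C` are equal. For countable `X` one uses a sequence of periodic points with
  pairwise different orbits that converges to `0`.)
* For each infinite `θ` the successor of `θ` and some limit cardinal above `θ` are separated by a
  sentence of the logic with permutation variables and by a second-order sentence.
-/

namespace Pool.Agent.Results.MP_f89ea0_lc.PinusDisproof

open Pinus

universe u

/-- There is a finitely based variety for which the relation `≡_S` on the infinite cardinals (the
lattices of subalgebras of the free algebras of ranks `κ` and `λ` are elementarily equivalent) is
different from each of `∇`, `≡_{2p}` and `≡_2`. -/
theorem result : ∃ V : FBVariety,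
    equivS.{u} V ≠ nabla ∧ equivS.{u} V ≠ equiv2p ∧ equivS.{u} V ≠ equiv2 :=
  ⟨pinVar, main⟩

end Pool.Agent.Results.MP_f89ea0_lc.PinusDisproof
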